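import Pool.Agent.KLA.Pieces3

/-!
Few starting points of Collatz's original permutation have a low path
-/

open Finset Pool.Agent.KLA

namespace Pool.Agent.KLR62

theorem klam_inj : Function.Injective klam := by
  intro a b h
  unfold klam at h
  split_ifs at h <;> omega

/-- Growth of a path that stays above `y`. -/
theorem grow {y n : ℕ} (hy : 1 ≤ y) (J : ℕ) (h : ∀ j < J, y < klam^[j] n) :
    (n : ℝ) * Mp 0 J n * (1 - 1 / (2 * y)) ^ J ≤ klam^[J] n := by
  induction J with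
  | zero => simp [Mp]
  | succ J ih =>
    have ih' := ih (fun j hj => h j (by omega))
    have hz := h J (by omega)
    rw [Mp_succ (Nat.zero_le J), Function.iterate_succ_apply', pow_succ]
    set z := klam^[J] n with hzd
    have h2 := klam_ge z
    have h3 : (2 / 3 : ℝ) ≤ mu (z % 3) := by unfold mu; split_ifs <;> norm_num
    have hy1 : (1 : ℝ) ≤ y := by exact_mod_cast hy
    have hy0 : (0 : ℝ) < y := by linarith
    have hyz : (y : ℝ) ≤ z := by exact_mod_cast hz.le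
    have h4 : mu (z % 3) * z * (1 - 1 / (2 * y)) ≤ klam z := by
      have h5 : 1 / 3 ≤ mu (z % 3) * z * (1 / (2 * y)) := by
        rw [mul_one_div, le_div_iff₀ (by positivity)]
        nlinarith
      have h6 : mu (z % 3) * z * (1 - 1 / (2 * y)) =
        mu (z % 3) * z - mu (z % 3) * z * (1 / (2 * y)) := by ring
      linarith
    have h6 : 0 ≤ 1 - 1 / (2 * (y : ℝ)) := by
      rw [sub_nonneg, div_le_one (by positivity)]
      linarith
    calc (n : ℝ) * (Mp 0 J n * mu (z % 3)) * ((1 - 1 / (2 * y)) ^ J * (1 - 1 / (2 * y)))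
        = (n * Mp 0 J n * (1 - 1 / (2 * y)) ^ J) * (mu (z % 3) * (1 - 1 / (2 * y))) := by ring
      _ ≤ z * (mu (z % 3) * (1 - 1 / (2 * y))) :=
          mul_le_mul_of_nonneg_right ih' (mul_nonneg (mu_pos _).le h6)
      _ = mu (z % 3) * z * (1 - 1 / (2 * y)) := by ring
      _ ≤ klam z := h4

theorem half_le {y J : ℕ} (hy : 1 ≤ y) (hJ : J ≤ y) : (1 / 2 : ℝ) ≤ (1 - 1 / (2 * y)) ^ J := by
  have hy1 : (1 : ℝ) ≤ y := by exact_mod_cast hy
  have hy0 : (0 : ℝ) < y := by linarith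
  have hJ' : (J : ℝ) ≤ y := by exact_mod_cast hJ
  have h1 : 1 / (2 * (y : ℝ)) ≤ 1 := by rw [div_le_one (by positivity)]; linarith
  have h := one_add_mul_le_pow (a := -(1 / (2 * (y : ℝ)))) (by linarith) J
  have h2 : (J : ℝ) * (1 / (2 * y)) ≤ 1 / 2 := by
    rw [mul_one_div, div_le_iff₀ (by positivity)]
    linarith
  have h3 : 1 + -(1 / (2 * (y : ℝ))) = 1 - 1 / (2 * y) := by ring
  rw [h3] at h
  linarith

open Classical in
theorem hits (x y L : ℕ) :
    ((Icc 1 x).filter (fun n => ∃ j ≤ L, klam^[j] n ≤ y)).card ≤ (L + 1) * (y + 1) := by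
  have hsub : (Icc 1 x).filter (fun n => ∃ j ≤ L, klam^[j] n ≤ y) ⊆
      (range (L + 1)).biUnion (fun j => (Icc 1 x).filter (fun n => klam^[j] n ≤ y)) := by
    intro n hn
    rw [Finset.mem_filter] at hn
    obtain ⟨h1, j, hj, h2⟩ := hn
    rw [Finset.mem_biUnion]
    exact ⟨j, Finset.mem_range.mpr (by omega), Finset.mem_filter.mpr ⟨h1, h2⟩⟩
  refine (Finset.card_le_card hsub).trans (Finset.card_biUnion_le.trans ?_)
  have h : ∀ j ∈ range (L + 1), ((Icc 1 x).filter (fun n => klam^[j] n ≤ y)).card ≤ y + 1 := by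
    intro j _
    have h1 : ((Icc 1 x).filter (fun n => klam^[j] n ≤ y)).card ≤ (range (y + 1)).card := by
      apply Finset.card_le_card_of_injOn (fun n => klam^[j] n)
      · intro n hn
        have h2 := (Finset.mem_filter.mp (Finset.mem_coe.mp hn)).2
        exact Finset.mem_coe.mpr (Finset.mem_range.mpr (Nat.lt_succ_of_le h2))
      · exact (klam_inj.iterate j).injOn
    rwa [Finset.card_range] at h1
  refine (Finset.sum_le_sum h).trans ?_
  rw [Finset.sum_const, Finset.card_range, smul_eq_mul]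

open Classical in
theorem block {s θ : ℝ} (hs : 0 ≤ s) (hθ : 0 < θ) (i : ℕ) :
    (((Ico (3 ^ i) (3 ^ (i + 1))).filter (fun n => Mp 0 i n ≤ θ)).card : ℝ) ≤
      2 * (θ ^ s * (3 * lam s) ^ i) := by
  have hU : ∀ m, Up 0 m := fun m i hi => absurd hi (Nat.not_lt_zero i)
  have hsub : (Ico (3 ^ i) (3 ^ (i + 1))).filter (fun n => Mp 0 i n ≤ θ) ⊆
      ((range (3 ^ i)).filter (fun n => Up 0 (3 ^ i + n) ∧ Mp 0 i (3 ^ i + n) ≤ θ)).image
        (fun n => 3 ^ i + n) ∪
      ((range (3 ^ i)).filter (fun n => Up 0 (2 * 3 ^ i + n) ∧ Mp 0 i (2 * 3 ^ i + n) ≤ θ)).image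
        (fun n => 2 * 3 ^ i + n) := by
    intro n hn
    rw [Finset.mem_filter, Finset.mem_Ico, pow_succ] at hn
    rw [Finset.mem_union, Finset.mem_image, Finset.mem_image]
    rcases Nat.lt_or_ge n (2 * 3 ^ i) with h | h
    · left
      refine ⟨n - 3 ^ i, ?_, by omega⟩
      have e : 3 ^ i + (n - 3 ^ i) = n := by omega
      rw [Finset.mem_filter, Finset.mem_range, e]
      exact ⟨by omega, hU _, hn.2⟩
    · right
      refine ⟨n - 2 * 3 ^ i, ?_, by omega⟩
      have e : 2 * 3 ^ i + (n - 2 * 3 ^ i) = n := by omega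
      rw [Finset.mem_filter, Finset.mem_range, e]
      exact ⟨by omega, hU _, hn.2⟩
  have h2 := (Finset.card_le_card hsub).trans (Finset.card_union_le _ _)
  rw [Finset.card_image_of_injective _ (add_right_injective _),
    Finset.card_image_of_injective _ (add_right_injective _)] at h2
  have k1 := count_small hs hθ (Nat.zero_le i) (le_refl i) (3 ^ i)
  have k2 := count_small hs hθ (Nat.zero_le i) (le_refl i) (2 * 3 ^ i)
  simp only [pow_zero, one_mul, Nat.sub_zero] at k1 k2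
  have h3 : (((Ico (3 ^ i) (3 ^ (i + 1))).filter (fun n => Mp 0 i n ≤ θ)).card : ℝ) ≤
      (((range (3 ^ i)).filter (fun n => Up 0 (3 ^ i + n) ∧ Mp 0 i (3 ^ i + n) ≤ θ)).card : ℝ) +
      (((range (3 ^ i)).filter
        (fun n => Up 0 (2 * 3 ^ i + n) ∧ Mp 0 i (2 * 3 ^ i + n) ≤ θ)).card : ℝ) := by
    exact_mod_cast h2
  have h4 : (θ ^ s * (3 * lam s) ^ i) = 3 ^ i * (θ ^ s * lam s ^ i) := by rw [mul_pow]; ring
  rw [h4]
  linarith

theorem one_lt_q {s : ℝ} (hs1 : s < 1) : 1 < 3 * lam s / 3 ^ s := by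
  have h1 : 3 * lam s / 3 ^ s = (2 : ℝ) ^ (-s) + 2 * (4 : ℝ) ^ (-s) := by
    have e1 : (2 : ℝ) ^ (-s) = 3 ^ (-s) * (2 / 3 : ℝ) ^ (-s) := by
      rw [← Real.mul_rpow (by norm_num) (by norm_num)]; norm_num
    have e2 : (4 : ℝ) ^ (-s) = 3 ^ (-s) * (4 / 3 : ℝ) ^ (-s) := by
      rw [← Real.mul_rpow (by norm_num) (by norm_num)]; norm_num
    rw [e1, e2, Real.rpow_neg (by norm_num : (0 : ℝ) ≤ 3)]
    unfold lam
    ring
  have h2 : (2 : ℝ) ^ (-1 : ℝ) < 2 ^ (-s) :=
    Real.rpow_lt_rpow_of_exponent_lt (by norm_num) (by linarith)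
  have h3 : (4 : ℝ) ^ (-1 : ℝ) < 4 ^ (-s) :=
    Real.rpow_lt_rpow_of_exponent_lt (by norm_num) (by linarith)
  rw [Real.rpow_neg_one] at h2 h3
  rw [h1]
  linarith

theorem pw {s T : ℝ} (hT : 0 < T) (i : ℕ) :
    (T / 3 ^ i) ^ s * (3 * lam s) ^ i = T ^ s * (3 * lam s / 3 ^ s) ^ i := by
  have h : ((3 : ℝ) ^ i) ^ s = (3 ^ s) ^ i := by
    rw [← Real.rpow_natCast, ← Real.rpow_mul (by norm_num), mul_comm,
      Real.rpow_mul (by norm_num), Real.rpow_natCast]
  rw [Real.div_rpow hT.le (by positivity), h, div_pow]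
  ring

open Classical in
theorem core {s : ℝ} (hs : 0 < s) (hs1 : s < 1) : ∃ C : ℝ, 0 < C ∧ ∀ x : ℕ, 1 ≤ x →
    ∀ T : ℝ, 0 < T →
    (((Icc 1 x).filter (fun n => ∀ j, 3 ^ j ≤ x → (klam^[j] n : ℝ) ≤ T)).card : ℝ) ≤
      (Nat.log 3 x + 1) * (Nat.sqrt x + 1) +
        C * ((T / 3 ^ Nat.log 3 x) ^ s * (3 * lam s) ^ Nat.log 3 x) := by
  set q := 3 * lam s / 3 ^ s with hq
  have hq1 : 1 < q := one_lt_q hs1
  refine ⟨2 * 2 ^ s * (q / (q - 1)), by
    have : 0 < q - 1 := by linarith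
    positivity, ?_⟩
  intro x hx T hT
  set L := Nat.log 3 x with hL
  set y := Nat.sqrt x with hy
  have hLx : 3 ^ L ≤ x := Nat.pow_log_le_self 3 (by omega)
  have hy1 : 1 ≤ y := Nat.le_sqrt.mpr (by omega)
  have hLy : L ≤ y := by
    have h : ∀ m : ℕ, m * m ≤ 3 ^ m := by
      intro m
      induction m with
      | zero => norm_num
      | succ m ih =>
        rw [pow_succ]
        rcases Nat.lt_or_ge m 2 with h | h
        · interval_cases m <;> norm_num
        · nlinarith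
    exact Nat.le_sqrt.mpr ((h L).trans hLx)
  set G := (Icc 1 x).filter (fun n => ∀ j, 3 ^ j ≤ x → (klam^[j] n : ℝ) ≤ T) with hG
  have hsub : G ⊆ (Icc 1 x).filter (fun n => ∃ j ≤ L, klam^[j] n ≤ y) ∪
      (range (L + 1)).biUnion (fun i =>
        (Ico (3 ^ i) (3 ^ (i + 1))).filter (fun n => Mp 0 i n ≤ 2 * T / 3 ^ i)) := by
    intro n hn
    rw [hG, Finset.mem_filter] at hn
    obtain ⟨hn1, hn2⟩ := hn
    have hn1' := Finset.mem_Icc.mp hn1
    rw [Finset.mem_union]
    by_cases hc : ∃ j ≤ L, klam^[j] n ≤ y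
    · exact Or.inl (Finset.mem_filter.mpr ⟨hn1, hc⟩)
    · right
      push Not at hc
      have hi : Nat.log 3 n ≤ L := Nat.log_mono_right hn1'.2
      rw [Finset.mem_biUnion]
      refine ⟨Nat.log 3 n, Finset.mem_range.mpr (by omega), Finset.mem_filter.mpr ⟨?_, ?_⟩⟩
      · rw [Finset.mem_Ico]
        exact ⟨Nat.pow_log_le_self 3 (by omega), Nat.lt_pow_succ_log_self (by norm_num) _⟩
      · set i := Nat.log 3 n with hid
        have hin : 3 ^ i ≤ n := Nat.pow_log_le_self 3 (by omega)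
        have g := grow hy1 i (fun j hj => hc j (by omega))
        have hh := half_le (J := i) hy1 (by omega)
        have ht := hn2 i (hin.trans hn1'.2)
        have hin' : (3 : ℝ) ^ i ≤ n := by exact_mod_cast hin
        have hM := Mp_pos 0 i n
        rw [le_div_iff₀ (by positivity)]
        have h1 : (n : ℝ) * Mp 0 i n * (1 / 2) ≤ n * Mp 0 i n * (1 - 1 / (2 * y)) ^ i :=
          mul_le_mul_of_nonneg_left hh (by positivity)
        have h2 : Mp 0 i n * 3 ^ i ≤ Mp 0 i n * n := mul_le_mul_of_nonneg_left hin' hM.le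
        nlinarith
  have h1 := (Finset.card_le_card hsub).trans (Finset.card_union_le _ _)
  have h2 := hits x y L
  have h3 : (G.card : ℝ) ≤ (L + 1) * (y + 1) + ∑ i ∈ range (L + 1),
      (((Ico (3 ^ i) (3 ^ (i + 1))).filter (fun n => Mp 0 i n ≤ 2 * T / 3 ^ i)).card : ℝ) := by
    have h4 : G.card ≤ (L + 1) * (y + 1) + ∑ i ∈ range (L + 1),
      ((Ico (3 ^ i) (3 ^ (i + 1))).filter (fun n => Mp 0 i n ≤ 2 * T / 3 ^ i)).card :=
      h1.trans (Nat.add_le_add h2 Finset.card_biUnion_le)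
    exact_mod_cast h4
  refine h3.trans (add_le_add le_rfl ?_)
  have hT2 : 0 < 2 * T := by linarith
  calc ∑ i ∈ range (L + 1),
      (((Ico (3 ^ i) (3 ^ (i + 1))).filter (fun n => Mp 0 i n ≤ 2 * T / 3 ^ i)).card : ℝ)
      ≤ ∑ i ∈ range (L + 1), 2 * ((2 * T) ^ s * q ^ i) := by
        apply Finset.sum_le_sum
        intro i _
        rw [hq, ← pw hT2]
        exact block hs.le (by positivity) i
    _ = 2 * (2 * T) ^ s * ∑ i ∈ range (L + 1), q ^ i := by
        rw [Finset.mul_sum]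
        exact Finset.sum_congr rfl (fun i _ => by ring)
    _ ≤ 2 * (2 * T) ^ s * (q ^ (L + 1) / (q - 1)) := by
        apply mul_le_mul_of_nonneg_left _ (by positivity)
        rw [geom_sum_eq hq1.ne']
        have : 0 < q - 1 := by linarith
        gcongr
        linarith
    _ = 2 * 2 ^ s * (q / (q - 1)) * ((T / 3 ^ L) ^ s * (3 * lam s) ^ L) := by
        rw [pw hT, ← hq, Real.mul_rpow (by norm_num) hT.le, pow_succ]
        ring

end Pool.Agent.KLR62
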